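import Pool.Agent.P.MP_e311cd_gt.I.Fin3

namespace Pool.Agent.Results.MP_e311cd_gt.Full

open Pool.Agent.P.MP_e311cd_gt

attribute [-instance] instHS

/-- A compact connected simple Lie group with its bi-invariant metric covers a pair of
isospectral non-isometric manifolds exactly when its dimension is greater than three. -/
theorem result {n : ℕ} (K : Subgroup (Matrix.unitaryGroup (Fin n) ℂ)) (k : Submodule ℝ (Mat n))
    (h : IsSimpleGroup K k) : Covers K k ↔ 3 < Module.finrank ℝ k :=
  ⟨fun c => lt_of_not_ge fun hd => not_covers h hd c, covers h⟩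

end Pool.Agent.Results.MP_e311cd_gt.Full
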